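import Pool.Agent.Helper70.RC.Goals

set_option autoImplicit false

/-!
# Project TW (MP_c7dfba_nt), packet HTR: the Hermite form through companion and Vandermonde matrices
-/

namespace Pool.Agent.Helper31.TW

open Pool.Agent Polynomial Pool.Agent.Helper70.RC Finset

universe u v

theorem vand_mul_comp {L : Type v} [Field L] (n : ℕ) (g : L[X]) (hg : g.Monic)
    (hn : g.natDegree = n) (ξ : Fin n → L) (hξ : ∀ i, g.eval (ξ i) = 0) :
    Matrix.vandermonde ξ * Helper70.RC.comp n g = Matrix.diagonal ξ * Matrix.vandermonde ξ := by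
  ext i j
  rw [Matrix.mul_apply, Matrix.diagonal_mul]
  simp only [Matrix.vandermonde_apply, Helper70.RC.comp, Matrix.of_apply]
  by_cases hj : (j : ℕ) + 1 = n
  · simp only [hj, if_true]
    have h := hξ i
    rw [eval_eq_sum_range, hn, sum_range_succ, ← hn, hg.coeff_natDegree, hn, one_mul] at h
    have h2 : ξ i * ξ i ^ (j : ℕ) = ξ i ^ n := by
      rw [← pow_succ', hj]
    rw [h2]
    have h3 : ∑ l : Fin n, ξ i ^ (l : ℕ) * -g.coeff l = - ∑ l ∈ range n, g.coeff l * ξ i ^ l := by
      rw [← Fin.sum_univ_eq_sum_range (fun l => g.coeff l * ξ i ^ l) n, ← sum_neg_distrib]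
      exact sum_congr rfl fun l _ => by ring
    rw [h3]
    linear_combination -h
  · simp only [hj, if_false]
    have hlt : (j : ℕ) + 1 < n := by
      have := j.2
      omega
    rw [sum_eq_single (⟨(j : ℕ) + 1, hlt⟩ : Fin n)]
    · simp only [if_true, mul_one]
      rw [pow_succ']
    · intro l _ hl
      have : ¬ ((l : ℕ) = j + 1) := fun h => hl (Fin.ext h)
      simp [this]
    · intro h
      exact absurd (mem_univ _) h

theorem trace_comp_pow {L : Type v} [Field L] (n : ℕ) (g : L[X]) (hg : g.Monic)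
    (hn : g.natDegree = n) (ξ : Fin n → L) (hinj : Function.Injective ξ)
    (hξ : ∀ i, g.eval (ξ i) = 0) (m : ℕ) :
    (Helper70.RC.comp n g ^ m).trace = ∑ i, ξ i ^ m := by
  have h1 := vand_mul_comp n g hg hn ξ hξ
  have hpow : ∀ m : ℕ, Matrix.vandermonde ξ * Helper70.RC.comp n g ^ m =
      Matrix.diagonal ξ ^ m * Matrix.vandermonde ξ := by
    intro m
    induction m with
    | zero => simp
    | succ m ih =>
      rw [pow_succ, ← mul_assoc, ih, mul_assoc, h1, ← mul_assoc, ← pow_succ]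
  have hdet : (Matrix.vandermonde ξ).det ≠ 0 := Matrix.det_vandermonde_ne_zero_iff.mpr hinj
  have hunit : IsUnit (Matrix.vandermonde ξ).det := isUnit_iff_ne_zero.mpr hdet
  have h2 : Helper70.RC.comp n g ^ m =
      (Matrix.vandermonde ξ)⁻¹ * (Matrix.diagonal ξ ^ m * Matrix.vandermonde ξ) := by
    rw [← hpow m, ← mul_assoc, Matrix.nonsing_inv_mul _ hunit, one_mul]
  rw [h2, Matrix.trace_mul_comm, mul_assoc, Matrix.mul_nonsing_inv _ hunit, mul_one,
    Matrix.diagonal_pow, Matrix.trace_diagonal]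
  simp

/-- **HTR**. -/
theorem htr : HTR.{u, v} := by
  intro k L _ _ _ n f hf hn ξ hinj hξ c
  have hg : (f.map (algebraMap k L)).Monic := hf.map _
  have hgn : (f.map (algebraMap k L)).natDegree = n := by
    rw [hf.natDegree_map, hn]
  have hgξ : ∀ i, (f.map (algebraMap k L)).eval (ξ i) = 0 := fun i => by
    rw [eval_map_algebraMap]
    exact hξ i
  have hherm : ∀ i j, algebraMap k L (herm n f i j) = ∑ l, ξ l ^ ((i : ℕ) + (j : ℕ)) := by
    intro i j
    have h1 := herm_map (algebraMap k L) n f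
    have h2 := congrFun (congrFun h1 i) j
    rw [Matrix.map_apply] at h2
    rw [← h2]
    simp only [herm, Matrix.of_apply]
    exact trace_comp_pow n _ hg hgn ξ hinj hgξ _
  simp only [map_sum, map_mul, hherm]
  have h3 : ∀ l, (∑ j, algebraMap k L (c j) * ξ l ^ (j : ℕ)) ^ 2 =
      ∑ i, ∑ j, (algebraMap k L (c i) * ξ l ^ (i : ℕ)) * (algebraMap k L (c j) * ξ l ^ (j : ℕ)) := by
    intro l
    rw [pow_two, sum_mul_sum]
  simp only [h3]
  rw [sum_comm]
  have h4 : ∀ i, ∑ l, ∑ j, (algebraMap k L (c i) * ξ l ^ (i : ℕ)) *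
      (algebraMap k L (c j) * ξ l ^ (j : ℕ)) =
      ∑ j, ∑ l, (algebraMap k L (c i) * ξ l ^ (i : ℕ)) *
      (algebraMap k L (c j) * ξ l ^ (j : ℕ)) := fun i => sum_comm
  rw [sum_comm (s := univ) (t := univ)]
  rw [sum_comm (s := univ) (t := univ)
    (f := fun l i => ∑ j, (algebraMap k L (c i) * ξ l ^ (i : ℕ)) *
      (algebraMap k L (c j) * ξ l ^ (j : ℕ)))]
  refine sum_congr rfl fun i _ => ?_
  rw [h4]
  refine sum_congr rfl fun j _ => ?_
  rw [mul_sum, sum_mul]
  refine sum_congr rfl fun l _ => ?_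
  rw [pow_add]
  ring

end Pool.Agent.Helper31.TW
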