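import Pool.Agent.Helper83.TW.Goals1

set_option autoImplicit false

namespace Pool.Agent.Helper31.TW

open Complex Pool.Agent.Helper83.TW Filter Topology

theorem deriv_sym {G H : ℂ → ℂ} {z : ℂ} (h : ∀ᶠ w in 𝓝 (cj z), G w = cj (H (cj w))) :
    deriv G (cj z) = cj (deriv H z) := by
  have h1 : G =ᶠ[𝓝 (cj z)] (starRingEnd ℂ ∘ H ∘ starRingEnd ℂ) := h
  rw [h1.deriv_eq, deriv_conj_conj]
  simp

theorem mem_slice1 {U : Set (ℂ × ℂ)} (hU : IsOpen U) {p : ℂ × ℂ} (hp : p ∈ U) :
    ∀ᶠ z in 𝓝 p.1, (z, p.2) ∈ U := by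
  have hc : ContinuousAt (fun z : ℂ => (z, p.2)) p.1 := by fun_prop
  exact hc (hU.mem_nhds hp)

theorem mem_slice2 {U : Set (ℂ × ℂ)} (hU : IsOpen U) {p : ℂ × ℂ} (hp : p ∈ U) :
    ∀ᶠ z in 𝓝 p.2, (p.1, z) ∈ U := by
  have hc : ContinuousAt (fun z : ℂ => (p.1, z)) p.2 := by fun_prop
  exact hc (hU.mem_nhds hp)

theorem gHolD (h12 : GD12) : GHolD := by
  refine ⟨?_, ?_⟩
  · intro f U hU hsh hcj hf
    obtain ⟨hd1, hd2, -, -⟩ := h12 f U hU hf.diff
    refine ⟨⟨hd1, ?_, ?_⟩, ⟨hd2, ?_, ?_⟩⟩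
    · intro p hp
      have hev : (fun z => f (z + 1, p.2)) =ᶠ[𝓝 p.1] (fun z => f (z, p.2)) := by
        filter_upwards [mem_slice1 hU hp] with z hz
        exact hf.per _ hz
      have := hev.deriv_eq
      rw [deriv_comp_add_const (f := fun z => f (z, p.2)) (a := 1)] at this
      exact this
    · intro p hp
      show deriv (fun z => f (z, cj p.2)) (cj p.1) = cj (deriv (fun z => f (z, p.2)) p.1)
      apply deriv_sym
      have hp' := hcj p hp
      filter_upwards [mem_slice1 hU hp'] with z hz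
      have := hf.sym _ hz
      simp only [conj_conj] at this
      rw [this]; simp
    · intro p hp
      show deriv (fun z => f (p.1 + 1, z)) p.2 = deriv (fun z => f (p.1, z)) p.2
      have hev : (fun z => f (p.1 + 1, z)) =ᶠ[𝓝 p.2] (fun z => f (p.1, z)) := by
        filter_upwards [mem_slice2 hU hp] with z hz
        exact hf.per _ hz
      exact hev.deriv_eq
    · intro p hp
      show deriv (fun z => f (cj p.1, z)) (cj p.2) = cj (deriv (fun z => f (p.1, z)) p.2)
      apply deriv_sym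
      have hp' := hcj p hp
      filter_upwards [mem_slice2 hU hp'] with z hz
      have := hf.sym _ hz
      simp only [conj_conj] at this
      rw [this]; simp
  · intro f s hf
    refine ⟨hf.diff.deriv (isOpen_Om s), ?_⟩
    intro w hw
    apply deriv_sym
    have hw' := Om_cj hw
    filter_upwards [(isOpen_Om s).mem_nhds hw'] with z hz
    have := hf.sym _ hz
    rw [this]; simp

end Pool.Agent.Helper31.TW
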