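import Pool.Agent.Helper83.TW.Goals1

set_option autoImplicit false

namespace Pool.Agent.Helper31.TW

open Complex Pool.Agent.Helper83.TW Filter Topology

/-- the iteration -/
noncomputable def itT (t : ℂ × ℂ → ℂ) : ℕ → ℂ × ℂ → ℂ
  | 0 => fun _ => 0
  | (k+1) => fun p => - t (p.1 + itT t k p, p.2)

theorem gInv (hO : GOsg) (hC : GCau) : GInv := by
  intro R S1 δ1 ν t hS1 hδ1 hν hνδ ht hb
  obtain ⟨-, hO2⟩ := hO
  obtain ⟨-, hC2, -⟩ := hC
  set D := Dom (R - δ1) S1 with hD
  have hDo : IsOpen D := isOpen_Dom _ _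
  have hmem : ∀ p ∈ D, ∀ y : ℂ, ‖y‖ ≤ ν → (p.1 + y, p.2) ∈ Dom (R - (δ1 - ν)) S1 := by
    intro p hp y hy
    refine ⟨?_, hp.2⟩
    have h1 : |p.1.im| < R - δ1 := hp.1
    have h2 : |y.im| ≤ ν := (abs_im_le_norm y).trans hy
    show |(p.1 + y).im| < R - (δ1 - ν)
    rw [add_im]
    have := abs_add_le p.1.im y.im
    linarith
  have hmem' : ∀ p ∈ D, ∀ y : ℂ, ‖y‖ ≤ ν → (p.1 + y, p.2) ∈ Dom R S1 := by
    intro p hp y hy
    exact Dom_mono (by linarith) le_rfl (hmem p hp y hy)
  have hbd : ∀ k, ∀ p ∈ D, ‖itT t k p‖ ≤ ν := by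
    intro k
    induction k with
    | zero => intro p _; simpa [itT] using hν
    | succ k ih =>
      intro p hp
      show ‖- t (p.1 + itT t k p, p.2)‖ ≤ ν
      rw [norm_neg]
      exact hb _ (hmem' p hp _ (ih p hp))
  have hper : ∀ k, ∀ p ∈ D, itT t k (p.1 + 1, p.2) = itT t k p := by
    intro k
    induction k with
    | zero => intro p _; rfl
    | succ k ih =>
      intro p hp
      show - t (p.1 + 1 + itT t k (p.1 + 1, p.2), p.2) = - t (p.1 + itT t k p, p.2)
      rw [ih p hp]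
      have := ht.per _ (hmem' p hp _ (hbd k p hp))
      have h2 : p.1 + 1 + itT t k p = p.1 + itT t k p + 1 := by ring
      rw [h2, this]
  have hsym : ∀ k, ∀ p ∈ D, itT t k (cj p.1, cj p.2) = cj (itT t k p) := by
    intro k
    induction k with
    | zero => intro p _; simp [itT]
    | succ k ih =>
      intro p hp
      show - t (cj p.1 + itT t k (cj p.1, cj p.2), cj p.2) = cj (- t (p.1 + itT t k p, p.2))
      rw [ih p hp]
      have := ht.sym _ (hmem' p hp _ (hbd k p hp))
      have h2 : cj p.1 + cj (itT t k p) = cj (p.1 + itT t k p) := by simp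
      rw [h2, this]; simp
  have hdiff : ∀ k, DifferentiableOn ℂ (itT t k) D := by
    intro k
    induction k with
    | zero => exact differentiableOn_const 0
    | succ k ih =>
      have h1 : DifferentiableOn ℂ (fun p : ℂ × ℂ => (p.1 + itT t k p, p.2)) D :=
        (differentiable_fst.differentiableOn.add ih).prodMk differentiable_snd.differentiableOn
      have h2 : Set.MapsTo (fun p : ℂ × ℂ => (p.1 + itT t k p, p.2)) D (Dom R S1) := by
        intro p hp
        exact hmem' p hp _ (hbd k p hp)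
      exact (ht.diff.comp h1 h2).neg
  -- Lipschitz estimate
  have hlip : ∀ p ∈ D, ∀ y y' : ℂ, ‖y‖ ≤ ν → ‖y'‖ ≤ ν →
      ‖t (p.1 + y, p.2) - t (p.1 + y', p.2)‖ ≤ 1/3 * ‖y - y'‖ := by
    intro p hp y y' hy hy'
    have hconv : Convex ℝ {z : ℂ | |z.im| < R - (δ1 - ν)} := by
      have h1 : {z : ℂ | |z.im| < R - (δ1 - ν)}
          = Complex.imCLM ⁻¹' (Set.Ioo (-(R - (δ1 - ν))) (R - (δ1 - ν))) := by
        ext z; simp [abs_lt]
      rw [h1]
      exact (convex_Ioo _ _).is_linear_preimage Complex.imCLM.toLinearMap.isLinear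
    have hdt : ∀ z ∈ {z : ℂ | |z.im| < R - (δ1 - ν)},
        DifferentiableAt ℂ (fun z => t (z, p.2)) z := by
      intro z hz
      have hz' : ((z, p.2) : ℂ × ℂ) ∈ Dom R S1 := ⟨by
        have : |z.im| < R - (δ1 - ν) := hz
        show |z.im| < R
        linarith, hp.2⟩
      have h1 := (ht.diff _ hz').differentiableAt ((isOpen_Dom R S1).mem_nhds hz')
      have h2 : DifferentiableAt ℂ (fun z : ℂ => (z, p.2)) z := by fun_prop
      exact DifferentiableAt.comp z h1 h2
    have hder : ∀ z ∈ {z : ℂ | |z.im| < R - (δ1 - ν)},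
        ‖deriv (fun z => t (z, p.2)) z‖ ≤ 1/3 := by
      intro z hz
      have h1 : (z, p.2) ∈ Dom (R - (δ1 - ν)) S1 := ⟨hz, hp.2⟩
      have h2 := hC2 t ν R S1 (δ1 - ν) (by linarith) ht.diff hb _ h1
      have h3 : ν / (δ1 - ν) ≤ 1/3 := by
        rw [div_le_iff₀ (by linarith)]
        linarith
      exact h2.trans h3
    have := hconv.norm_image_sub_le_of_norm_deriv_le (f := fun z => t (z, p.2)) hdt hder
      (hmem p hp y' hy').1 (hmem p hp y hy).1
    have h5 : p.1 + y - (p.1 + y') = y - y' := by ring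
    rw [h5] at this
    exact this
  have hstep : ∀ p ∈ D, ∀ k, dist (itT t k p) (itT t (k+1) p) ≤ ν * (1/3)^k := by
    intro p hp k
    induction k with
    | zero =>
      rw [dist_eq_norm]
      show ‖(0:ℂ) - itT t 1 p‖ ≤ ν * (1/3)^0
      rw [zero_sub, norm_neg]
      simpa using hbd 1 p hp
    | succ k ih =>
      rw [dist_eq_norm] at ih ⊢
      show ‖- t (p.1 + itT t k p, p.2) - - t (p.1 + itT t (k+1) p, p.2)‖ ≤ _
      have h1 : - t (p.1 + itT t k p, p.2) - - t (p.1 + itT t (k+1) p, p.2)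
          = t (p.1 + itT t (k+1) p, p.2) - t (p.1 + itT t k p, p.2) := by ring
      rw [h1]
      have h2 := hlip p hp _ _ (hbd (k+1) p hp) (hbd k p hp)
      rw [norm_sub_rev (itT t (k+1) p)] at h2
      calc _ ≤ _ := h2
        _ ≤ 1/3 * (ν * (1/3)^k) := by gcongr
        _ = ν * (1/3)^(k+1) := by ring
  have hcau : ∀ p ∈ D, CauchySeq (fun k => itT t k p) := fun p hp =>
    cauchySeq_of_le_geometric (1/3) ν (by norm_num) (hstep p hp)
  set τ : ℂ × ℂ → ℂ := fun p => limUnder atTop (fun k => itT t k p) with hτ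
  have hlim : ∀ p ∈ D, Tendsto (fun k => itT t k p) atTop (𝓝 (τ p)) := fun p hp =>
    (hcau p hp).tendsto_limUnder
  have hunif : TendstoUniformlyOn (itT t) τ atTop D := by
    rw [Metric.tendstoUniformlyOn_iff]
    intro ε hε
    have h1 : Tendsto (fun k : ℕ => ν * (1/3:ℝ)^k / (1 - 1/3)) atTop (𝓝 0) := by
      have := (tendsto_pow_atTop_nhds_zero_of_lt_one (r := (1/3:ℝ)) (by norm_num)
        (by norm_num)).const_mul ν
      have := this.div_const (1 - 1/3)
      simpa using this
    filter_upwards [(tendsto_order.1 h1).2 ε hε] with k hk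
    intro p hp
    rw [dist_comm]
    exact (dist_le_of_le_geometric_of_tendsto (1/3) ν (by norm_num) (hstep p hp)
      (hlim p hp) k).trans_lt hk
  have hτd : DifferentiableOn ℂ τ D := hO2 _ τ D hDo hdiff hunif
  have hτb : ∀ p ∈ D, ‖τ p‖ ≤ ν := by
    intro p hp
    exact le_of_tendsto (hlim p hp).norm (Eventually.of_forall fun k => hbd k p hp)
  refine ⟨τ, ⟨hτd, ?_, ?_⟩, hτb, ?_⟩
  · intro p hp
    have h1 := hlim p hp
    have h2 := hlim _ (Dom_shift hp)
    refine tendsto_nhds_unique h2 ?_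
    refine h1.congr fun k => ?_
    exact (hper k p hp).symm
  · intro p hp
    have h1 := (Complex.continuous_conj.tendsto _).comp (hlim p hp)
    have h2 := hlim _ (Dom_cj hp)
    refine tendsto_nhds_unique h2 ?_
    refine h1.congr fun k => ?_
    exact (hsym k p hp).symm
  · intro p hp
    have h1 := hlim p hp
    have h2 : Tendsto (fun k => itT t (k+1) p) atTop (𝓝 (τ p)) :=
      h1.comp (tendsto_add_atTop_nat 1)
    have h3 : ContinuousAt t (p.1 + τ p, p.2) :=
      ((ht.diff _ (hmem' p hp _ (hτb p hp))).differentiableAt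
        ((isOpen_Dom R S1).mem_nhds (hmem' p hp _ (hτb p hp)))).continuousAt
    have h4 : Tendsto (fun k => (p.1 + itT t k p, p.2)) atTop (𝓝 (p.1 + τ p, p.2)) :=
      (tendsto_const_nhds.add h1).prodMk_nhds tendsto_const_nhds
    have h5 : Tendsto (fun k => itT t (k+1) p) atTop (𝓝 (- t (p.1 + τ p, p.2))) :=
      (h3.tendsto.comp h4).neg
    have h6 := tendsto_nhds_unique h2 h5
    linear_combination h6

end Pool.Agent.Helper31.TW
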