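import Pool.Agent.Helper83.TW.Goals1

set_option autoImplicit false

namespace Pool.Agent.Helper31.TW

open Complex Pool.Agent.Helper83.TW Filter Topology

theorem hd1 {f : ℂ × ℂ → ℂ} {p : ℂ × ℂ} {A B : ℂ}
    (h : HasFDerivAt f (A • ContinuousLinearMap.fst ℂ ℂ ℂ + B • ContinuousLinearMap.snd ℂ ℂ ℂ) p) :
    HasDerivAt (fun z => f (z, p.2)) A p.1 := by
  have h1 : HasDerivAt (fun z : ℂ => (z, p.2)) ((1:ℂ), (0:ℂ)) p.1 :=
    (hasDerivAt_id p.1).prodMk (hasDerivAt_const p.1 p.2)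
  have h2 := HasFDerivAt.comp_hasDerivAt (l := f)
    (f := fun z : ℂ => (z, p.2)) p.1 h h1
  simpa [Function.comp_def] using h2

theorem hd2 {f : ℂ × ℂ → ℂ} {p : ℂ × ℂ} {A B : ℂ}
    (h : HasFDerivAt f (A • ContinuousLinearMap.fst ℂ ℂ ℂ + B • ContinuousLinearMap.snd ℂ ℂ ℂ) p) :
    HasDerivAt (fun z => f (p.1, z)) B p.2 := by
  have h1 : HasDerivAt (fun z : ℂ => (p.1, z)) ((0:ℂ), (1:ℂ)) p.2 :=
    (hasDerivAt_const p.2 p.1).prodMk (hasDerivAt_id p.2)
  have h2 := HasFDerivAt.comp_hasDerivAt (l := f)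
    (f := fun z : ℂ => (p.1, z)) p.2 h h1
  simpa [Function.comp_def] using h2

theorem cp1 {f τ : ℂ × ℂ → ℂ} {p : ℂ × ℂ} {A B T : ℂ}
    (h : HasFDerivAt f (A • ContinuousLinearMap.fst ℂ ℂ ℂ + B • ContinuousLinearMap.snd ℂ ℂ ℂ)
      (p.1 + τ p, p.2))
    (ht : HasDerivAt (fun z => τ (z, p.2)) T p.1) :
    HasDerivAt (fun z => f (z + τ (z, p.2), p.2)) (A * (1 + T)) p.1 := by
  have h1 : HasDerivAt (fun z : ℂ => (z + τ (z, p.2), p.2)) ((1:ℂ) + T, (0:ℂ)) p.1 :=
    ((hasDerivAt_id p.1).add ht).prodMk (hasDerivAt_const p.1 p.2)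
  have h2 := HasFDerivAt.comp_hasDerivAt (l := f)
    (f := fun z : ℂ => (z + τ (z, p.2), p.2)) p.1 h h1
  simpa [Function.comp_def] using h2

theorem cp2 {f τ : ℂ × ℂ → ℂ} {p : ℂ × ℂ} {A B T : ℂ}
    (h : HasFDerivAt f (A • ContinuousLinearMap.fst ℂ ℂ ℂ + B • ContinuousLinearMap.snd ℂ ℂ ℂ)
      (p.1 + τ p, p.2))
    (ht : HasDerivAt (fun z => τ (p.1, z)) T p.2) :
    HasDerivAt (fun z => f (p.1 + τ (p.1, z), z)) (A * T + B) p.2 := by
  have h1 : HasDerivAt (fun z : ℂ => (p.1 + τ (p.1, z), z)) (T, (1:ℂ)) p.2 :=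
    (ht.const_add p.1).prodMk (hasDerivAt_id p.2)
  have h2 := HasFDerivAt.comp_hasDerivAt (l := f)
    (f := fun z : ℂ => (p.1 + τ (p.1, z), z)) p.2 h h1
  simpa [Function.comp_def] using h2

theorem gNewI (h12 : GD12) (hTT : GTT) : GNewI := by
  intro ρ r s δ Λ η M hP S c hok hc κ E0 τ hcor htau
  have hΛ := hP.hΛ
  have hΛ0 : (0:ℝ) < Λ := by linarith
  have hs0 := hP.hs0
  have hδ0 := hP.hδ0
  have hη0 := hP.hη0
  -- smallness
  have hsm : Λ^5 * η ≤ δ := by
    have h1 : Λ^5 * η * Λ ≤ 1 := by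
      have h2 : Λ^6 * η ≤ Λ^40 * η := by
        gcongr
        · linarith
        · norm_num
      calc Λ^5 * η * Λ = Λ^6 * η := by ring
        _ ≤ Λ^40 * η := h2
        _ ≤ 1 := hP.hη
    have h3 : 1 ≤ Λ * δ := hP.M_le
    have h4 : Λ^5 * η * Λ ≤ δ * Λ := by linarith
    exact le_of_mul_le_mul_right h4 hΛ0
  have hsm3 : Λ^3 * η ≤ 1/4 := by
    have h1 : Λ^3 * η * Λ ≤ 1 := by
      have h2 : Λ^4 * η ≤ Λ^40 * η := by
        gcongr
        · linarith
        · norm_num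
      calc Λ^3 * η * Λ = Λ^4 * η := by ring
        _ ≤ Λ^40 * η := h2
        _ ≤ 1 := hP.hη
    have h4 : 0 ≤ Λ^3 * η := by positivity
    nlinarith
  have hc' : c ≤ 1/4 := by linarith [hP.hρ1]
  obtain ⟨-, -, hE2, -⟩ := hTT ρ r s δ Λ η M hP S c hok hc κ E0 hcor
  refine ⟨?_, ?_⟩
  · intro p hp
    have hpτ : p ∈ Dom (r - 13/2*δ) (3*s/8) := Dom_mono (by linarith) (by linarith) hp
    set q : ℂ × ℂ := (p.1 + τ p, p.2) with hq
    have hτp := htau.bτ p hpτ
    have hqm : q ∈ Dom (r - 7*δ) (s/4) := by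
      refine ⟨?_, hp.2⟩
      show |(p.1 + τ p).im| < _
      rw [add_im]
      have h1 := hp.1
      have h2 := (abs_im_le_norm (τ p)).trans hτp
      have := abs_add_le p.1.im (τ p).im
      linarith
    have hqr : q ∈ Dom r s := Dom_mono (by linarith) (by linarith) hqm
    have hqκ : q ∈ Dom (r - 5*δ) (s/2) := Dom_mono (by linarith) (by linarith) hqm
    -- derivatives
    obtain ⟨-, -, -, hu⟩ := h12 S.u (Dom r s) (isOpen_Dom _ _) hok.hu.diff
    obtain ⟨-, -, -, hv⟩ := h12 S.v (Dom r s) (isOpen_Dom _ _) hok.hv.diff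
    obtain ⟨-, -, -, hk⟩ := h12 κ (Dom (r - 5*δ) (s/2)) (isOpen_Dom _ _) hcor.hκ.diff
    obtain ⟨-, -, -, ht⟩ := h12 τ (Dom (r - 13/2*δ) (3*s/8)) (isOpen_Dom _ _) htau.hτ.diff
    have hu := hu q hqr
    have hv := hv q hqr
    have hk := hk q hqκ
    have ht := ht p hpτ
    have ht1 := hd1 ht
    have ht2 := hd2 ht
    have hu1 := cp1 hu ht1
    have hu2 := cp2 hu ht2
    have hv1 := cp1 hv ht1
    have hv2 := cp2 hv ht2
    have hk1 := cp1 hk ht1
    have hk2 := cp2 hk ht2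
    have hw : p.2 ∈ Om s := Om_mono (by linarith) hp.2
    have ha : HasDerivAt S.a (deriv S.a p.2) p.2 :=
      ((hok.ha.diff _ hw).differentiableAt ((isOpen_Om s).mem_nhds hw)).hasDerivAt
    have hE : HasDerivAt (deriv E0) (deriv (deriv E0) p.2) p.2 :=
      (((hcor.hE.diff.deriv (isOpen_Om s)) _ hw).differentiableAt
        ((isOpen_Om s).mem_nhds hw)).hasDerivAt
    -- D1 u'
    have e1 : D1 (newS S κ E0 τ).u p = D1 τ p + D1 S.u q * (1 + D1 τ p) := by
      have := ht1.add hu1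
      exact this.deriv
    have e2 : D2 (newS S κ E0 τ).u p = D2 τ p + (D1 S.u q * D2 τ p + D2 S.u q) := by
      have := ht2.add hu2
      exact this.deriv
    have e3 : D1 (newS S κ E0 τ).v p = (S.a p.2 + deriv E0 p.2) * D1 τ p
        + D1 S.v q * (1 + D1 τ p) + D1 κ q * (1 + D1 τ p) := by
      have := ((ht1.const_mul (S.a p.2 + deriv E0 p.2)).add hv1).add hk1
      exact this.deriv
    have e4 : D2 (newS S κ E0 τ).v p = ((deriv S.a p.2 + deriv (deriv E0) p.2) * τ p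
        + (S.a p.2 + deriv E0 p.2) * D2 τ p)
        + (D1 S.v q * D2 τ p + D2 S.v q) + (D1 κ q * D2 τ p + D2 κ q) := by
      have := (((ha.add hE).mul ht2).add hv2).add hk2
      exact this.deriv
    have e5 : (newS S κ E0 τ).a p.2 = S.a p.2 + deriv E0 p.2 := rfl
    rw [e1, e2, e3, e4, e5]
    have hI2 := hok.I2 q hqr
    have heτ := htau.eτ p hpτ
    -- nonvanishing
    have hn1 : 1 + D1 S.u q ≠ 0 := by
      intro h0
      have h1 := hok.bu1 q hqr
      have h2 : D1 S.u q = -1 := by linear_combination h0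
      rw [h2] at h1
      simp at h1
      linarith
    have hw2 : p.2 ∈ Om (s/2) := Om_mono (by linarith) hp.2
    have hn2 : deriv S.a p.2 + deriv (deriv E0) p.2 ≠ 0 := by
      intro h0
      have h1 := hok.ba1 p.2 hw
      have h2 := (hE2 p.2 hw2).2
      have h3 : (1:ℂ) = -((deriv S.a p.2 - 1) + deriv (deriv E0) p.2) := by
        linear_combination h0
      have h4 : (1:ℝ) = ‖(1:ℂ)‖ := by simp
      have h5 : ‖(1:ℂ)‖ ≤ ‖deriv S.a p.2 - 1‖ + ‖deriv (deriv E0) p.2‖ := by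
        conv_lhs => rw [h3]
        rw [norm_neg]
        exact norm_add_le _ _
      linarith
    have key : (1 + D1 S.u q) * (D2 κ q + (deriv S.a p.2 + deriv (deriv E0) p.2) * τ p)
        = D2 S.u q * (D1 κ q + deriv E0 p.2) := by
      have h1 : tt S κ E0 q = (D2 κ q - D2 S.u q / (1 + D1 S.u q) * (D1 κ q + deriv E0 p.2))
        / (deriv S.a p.2 + deriv (deriv E0) p.2) := rfl
      rw [h1] at heτ
      have h2 : τ p * (deriv S.a p.2 + deriv (deriv E0) p.2)
          = -(D2 κ q - D2 S.u q / (1 + D1 S.u q) * (D1 κ q + deriv E0 p.2)) := by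
        have h3 : τ p = -((D2 κ q - D2 S.u q / (1 + D1 S.u q) * (D1 κ q + deriv E0 p.2))
          / (deriv S.a p.2 + deriv (deriv E0) p.2)) := by linear_combination heτ
        rw [h3]
        field_simp
      have h4 : D2 S.u q / (1 + D1 S.u q) * (1 + D1 S.u q) = D2 S.u q := by
        field_simp
      linear_combination (1 + D1 S.u q) * h2 + (D1 κ q + deriv E0 p.2) * h4
    have hI2' : (1 + D1 S.u q) * D2 S.v q = (S.a p.2 + D1 S.v q) * D2 S.u q := hI2
    linear_combination (1 + D1 τ p) * hI2' + (1 + D1 τ p) * key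
  · intro w hw
    have hw : w ∈ Om s := Om_mono (by linarith) hw
    have ha : HasDerivAt S.a (deriv S.a w) w :=
      ((hok.ha.diff _ hw).differentiableAt ((isOpen_Om s).mem_nhds hw)).hasDerivAt
    have hg : HasDerivAt S.γ (deriv S.γ w) w :=
      ((hok.hγ.diff _ hw).differentiableAt ((isOpen_Om s).mem_nhds hw)).hasDerivAt
    have hE0 : HasDerivAt E0 (deriv E0 w) w :=
      ((hcor.hE.diff _ hw).differentiableAt ((isOpen_Om s).mem_nhds hw)).hasDerivAt
    have hE : HasDerivAt (deriv E0) (deriv (deriv E0) w) w :=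
      (((hcor.hE.diff.deriv (isOpen_Om s)) _ hw).differentiableAt
        ((isOpen_Om s).mem_nhds hw)).hasDerivAt
    have h1 : deriv (newS S κ E0 τ).γ w
        = deriv S.γ w + (1 * deriv E0 w + w * deriv (deriv E0) w) - deriv E0 w := by
      have := (hg.add ((hasDerivAt_id w).mul hE)).sub hE0
      exact this.deriv
    have h2 : deriv (newS S κ E0 τ).a w = deriv S.a w + deriv (deriv E0) w := by
      exact (ha.add hE).deriv
    rw [h1, h2, hok.I3 w hw]
    ring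

end Pool.Agent.Helper31.TW
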